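import Mathlib
import Pool.Agent.H7.Nil.Final

/-! The group of 4x4 unitriangular integer matrices does not embed into the group of
C^(3/2) diffeomorphisms of [0,1]: every homomorphism kills the centre. -/

namespace Pool.Agent.Results.MP_394821_an.CriticalExponent

open Pool.Agent.H7.Nil

theorem result :
    (¬ ∃ φ : G4 →* Diff (1 / 2) one_half_pos, Function.Injective φ) ∧
    (∀ φ : G4 →* Diff (1 / 2) one_half_pos, ∀ A ∈ Subgroup.center G4, φ A = 1) := by
  constructor
  · rintro ⟨φ, hφ⟩
    have h1 := kills_e14 φ
    exact hM_ne_one (hφ (h1.trans (map_one φ).symm))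
  · intro φ A hA
    obtain ⟨c, rfl⟩ := center_eq A hA
    rw [map_zpow, kills_e14, one_zpow]

end Pool.Agent.Results.MP_394821_an.CriticalExponent
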